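import Pool.Agent.R788.PI.Flow

set_option autoImplicit false

namespace Pool.Agent.R788.PI

open Complex

/-- The inequalities between the translation lengths and the widths of the barrel. -/
structure Par (α β : ℝ) : Prop where
  ha : |α| < 1
  hb : |β| < 1
  pos : 0 < hh β
  le : hh β ≤ hh α
  low : ∀ y : ℝ, |y| ≤ S α → hh α ≤ W α y
  up : ∀ y : ℝ, W α y ≤ hh α + hh β
  Spos : 0 < S α

variable {α β : ℝ}

theorem ab_neg {c : ℝ} (hc : |c| < 1) : |-c| < 1 := by rwa [abs_neg]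

theorem absY {z : ℂ} (hz : z ∈ Q α) : |Y z| ≤ S α := by
  rw [mem_Q'] at hz
  exact abs_le.mpr ⟨hz.2.2.1, hz.2.2.2.le⟩

theorem phi_one (hP : Par α β) {z : ℂ} (hz : z ∈ Q α) (h : v z + 2 * hh β < W α (Y z)) :
    phi α β z = tau β z := by
  unfold phi
  rw [if_pos ⟨hz, (mem_quad hP.hb (mem_Q'.mp hz).1).mpr h⟩]

theorem phi_two (hP : Par α β) {z : ℂ} (hz : z ∈ Q α) (h : - W α (Y z) ≤ v z - 2 * hh α) :
    phi α β z = tau (-α : ℝ) z := by
  have hz1 := (mem_Q'.mp hz).1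
  unfold phi
  rw [if_neg, if_pos ⟨hz, (mem_lens hP.ha hz1).mpr h⟩]
  · push_cast; rfl
  · rintro ⟨-, h2⟩
    rw [mem_quad hP.hb hz1] at h2
    have := hP.up (Y z)
    linarith

theorem phi_three (hP : Par α β) {z : ℂ} (hz : z ∈ Q α) (h : ¬ v z + 2 * hh β < W α (Y z))
    (h' : ¬ - W α (Y z) ≤ v z - 2 * hh α) :
    phi α β z = tau (-α : ℝ) (tau β z) := by
  have hz1 := (mem_Q'.mp hz).1
  unfold phi
  rw [if_neg, if_neg]
  · push_cast; rfl
  · rintro ⟨-, h2⟩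
    exact h' ((mem_lens hP.ha hz1).mp h2)
  · rintro ⟨-, h2⟩
    exact h ((mem_quad hP.hb hz1).mp h2)

/-- The three cases, with the values of the coordinate. -/
theorem phi_cases (hP : Par α β) {z : ℂ} (hz : z ∈ Q α) :
    (phi α β z = tau β z ∧ v (phi α β z) = v z + 2 * hh β ∧
      v (phi α β z) < W α (Y z)) ∨
    (phi α β z = tau (-α : ℝ) z ∧ v (phi α β z) = v z - 2 * hh α ∧
      - W α (Y z) ≤ v (phi α β z)) ∨
    (phi α β z = tau (-α : ℝ) (tau β z) ∧ v (phi α β z) = v z + 2 * hh β - 2 * hh α ∧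
      W α (Y z) - 2 * hh α ≤ v (phi α β z) ∧ v (phi α β z) < 2 * hh β - W α (Y z)) := by
  have hz1 := (mem_Q'.mp hz).1
  by_cases h : v z + 2 * hh β < W α (Y z)
  · left
    rw [phi_one hP hz h, v_tau hP.hb hz1]
    exact ⟨rfl, rfl, h⟩
  · by_cases h' : - W α (Y z) ≤ v z - 2 * hh α
    · right; left
      rw [phi_two hP hz h', v_tau (ab_neg hP.ha) hz1, hh_neg]
      refine ⟨rfl, by ring, by linarith⟩
    · right; right
      rw [phi_three hP hz h h', v_tau (ab_neg hP.ha) (norm_tau_lt hP.hb hz1), hh_neg,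
        v_tau hP.hb hz1]
      refine ⟨rfl, by ring, by linarith, by linarith⟩

theorem Y_phi (hP : Par α β) {z : ℂ} (hz : z ∈ Q α) : Y (phi α β z) = Y z := by
  have hz1 := (mem_Q'.mp hz).1
  rcases phi_cases hP hz with h | h | h
  · rw [h.1, Y_tau hP.hb hz1]
  · rw [h.1, Y_tau (ab_neg hP.ha) hz1]
  · rw [h.1, Y_tau (ab_neg hP.ha) (norm_tau_lt hP.hb hz1), Y_tau hP.hb hz1]

theorem norm_phi (hP : Par α β) {z : ℂ} (hz : z ∈ Q α) : ‖phi α β z‖ < 1 := by
  have hz1 := (mem_Q'.mp hz).1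
  rcases phi_cases hP hz with h | h | h
  · rw [h.1]; exact norm_tau_lt hP.hb hz1
  · rw [h.1]; exact norm_tau_lt (ab_neg hP.ha) hz1
  · rw [h.1]; exact norm_tau_lt (ab_neg hP.ha) (norm_tau_lt hP.hb hz1)

theorem phi_mem (hP : Par α β) {z : ℂ} (hz : z ∈ Q α) : phi α β z ∈ Q α := by
  rw [mem_Q']
  refine ⟨norm_phi hP hz, ?_, ?_⟩
  · rw [Y_phi hP hz]
    have h1 := (mem_Q'.mp hz).2.1
    have h2 := hP.low _ (absY hz)
    have h3 := hP.up (Y z)
    have h4 := hP.pos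
    have h5 := hP.le
    rcases phi_cases hP hz with h | h | h
    · constructor <;> linarith [h.2.1, h.2.2]
    · constructor <;> linarith [h.2.1, h.2.2]
    · constructor <;> linarith [h.2.1, h.2.2.1, h.2.2.2]
  · rw [Y_phi hP hz]; exact (mem_Q'.mp hz).2.2

theorem tau_inj {c : ℝ} {z w : ℂ} (hc : |c| < 1) (hz : ‖z‖ < 1) (hw : ‖w‖ < 1)
    (h : tau c z = tau c w) : z = w := by
  have h1 := tau_tau_neg (ab_neg hc) hz
  have h2 := tau_tau_neg (ab_neg hc) hw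
  rw [neg_neg] at h1 h2
  rw [← h1, h, h2]

theorem phi_inj (hP : Par α β) {z w : ℂ} (hz : z ∈ Q α) (hw : w ∈ Q α)
    (h : phi α β z = phi α β w) : z = w := by
  have hz1 := (mem_Q'.mp hz).1
  have hw1 := (mem_Q'.mp hw).1
  have hY : Y z = Y w := by rw [← Y_phi hP hz, h, Y_phi hP hw]
  have hv : v (phi α β z) = v (phi α β w) := by rw [h]
  have h3 := hP.up (Y z)
  have k1 := (mem_Q'.mp hz).2.1
  have k2 := (mem_Q'.mp hw).2.1
  have h4 := hP.pos
  rw [← hY] at k2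
  rcases phi_cases hP hz with a | a | a <;> rcases phi_cases hP hw with c | c | c <;>
    rw [← hY] at c
  · rw [a.1, c.1] at h; exact tau_inj hP.hb hz1 hw1 h
  · exfalso; linarith [a.2.1, a.2.2, c.2.1, c.2.2]
  · exfalso; linarith [a.2.1, a.2.2, c.2.1, c.2.2.1, c.2.2.2]
  · exfalso; linarith [a.2.1, a.2.2, c.2.1, c.2.2]
  · rw [a.1, c.1] at h; exact tau_inj (ab_neg hP.ha) hz1 hw1 h
  · exfalso; linarith [a.2.1, a.2.2, c.2.1, c.2.2.1, c.2.2.2]
  · exfalso; linarith [c.2.1, c.2.2, a.2.1, a.2.2.1, a.2.2.2]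
  · exfalso; linarith [c.2.1, c.2.2, a.2.1, a.2.2.1, a.2.2.2]
  · rw [a.1, c.1] at h
    exact tau_inj hP.hb hz1 hw1 (tau_inj (ab_neg hP.ha) (norm_tau_lt hP.hb hz1)
      (norm_tau_lt hP.hb hw1) h)

theorem phi_surj (hP : Par α β) {y : ℂ} (hy : y ∈ Q α) : ∃ z ∈ Q α, phi α β z = y := by
  have hy1 := (mem_Q'.mp hy).1
  have k := (mem_Q'.mp hy).2
  have h2 := hP.low _ (absY hy)
  have h3 := hP.up (Y y)
  have h4 := hP.pos
  have h5 := hP.le
  by_cases c1 : 2 * hh β - W α (Y y) ≤ v y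
  · have hv : v (tau (-β : ℝ) y) = v y - 2 * hh β := by
      rw [v_tau (ab_neg hP.hb) hy1, hh_neg]; ring
    have hY : Y (tau (-β : ℝ) y) = Y y := Y_tau (ab_neg hP.hb) hy1
    have hm : tau (-β : ℝ) y ∈ Q α := by
      rw [mem_Q', hv, hY]
      exact ⟨norm_tau_lt (ab_neg hP.hb) hy1, ⟨by linarith, by linarith⟩, k.2⟩
    refine ⟨_, hm, ?_⟩
    rw [phi_one hP hm (by rw [hv, hY]; linarith), tau_tau_neg hP.hb hy1]
  · by_cases c2 : v y < W α (Y y) - 2 * hh α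
    · have hv : v (tau α y) = v y + 2 * hh α := v_tau hP.ha hy1
      have hY : Y (tau α y) = Y y := Y_tau hP.ha hy1
      have hm : tau α y ∈ Q α := by
        rw [mem_Q', hv, hY]
        exact ⟨norm_tau_lt hP.ha hy1, ⟨by linarith, by linarith⟩, k.2⟩
      refine ⟨_, hm, ?_⟩
      rw [phi_two hP hm (by rw [hv, hY]; linarith)]
      have := tau_tau_neg (ab_neg hP.ha) hy1
      rwa [neg_neg] at this
    · have hv1 : v (tau α y) = v y + 2 * hh α := v_tau hP.ha hy1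
      have hY1 : Y (tau α y) = Y y := Y_tau hP.ha hy1
      have hn1 := norm_tau_lt hP.ha hy1
      have hv : v (tau (-β : ℝ) (tau α y)) = v y + 2 * hh α - 2 * hh β := by
        rw [v_tau (ab_neg hP.hb) hn1, hh_neg, hv1]; ring
      have hY : Y (tau (-β : ℝ) (tau α y)) = Y y := by rw [Y_tau (ab_neg hP.hb) hn1, hY1]
      have hm : tau (-β : ℝ) (tau α y) ∈ Q α := by
        rw [mem_Q', hv, hY]
        exact ⟨norm_tau_lt (ab_neg hP.hb) hn1, ⟨by linarith, by linarith⟩, k.2⟩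
      refine ⟨_, hm, ?_⟩
      rw [phi_three hP hm (by rw [hv, hY]; linarith) (by rw [hv, hY]; linarith),
        tau_tau_neg hP.hb hn1]
      have := tau_tau_neg (ab_neg hP.ha) hy1
      rwa [neg_neg] at this

/-- `φ` as a permutation of the barrel. -/
noncomputable def Phi (hP : Par α β) : Equiv.Perm (Q α) :=
  Equiv.ofBijective (fun z => ⟨phi α β z, phi_mem hP z.2⟩)
    ⟨fun z w h => Subtype.ext (phi_inj hP z.2 w.2 (congrArg Subtype.val h)),
     fun y => by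
      obtain ⟨z, hz, h⟩ := phi_surj hP y.2
      exact ⟨⟨z, hz⟩, Subtype.ext h⟩⟩

/-- The reflection as a permutation of the barrel. -/
noncomputable def Sg (α : ℝ) : Equiv.Perm (Q α) where
  toFun z := ⟨sig z, sig_mem_Q z.2⟩
  invFun z := ⟨sig z, sig_mem_Q z.2⟩
  left_inv z := Subtype.ext (sig_sig z)
  right_inv z := Subtype.ext (sig_sig z)

/-- `ψ` as a permutation of the barrel. -/
noncomputable def Psi (hP : Par α β) : Equiv.Perm (Q α) := Sg α * Phi hP * Sg α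

theorem Phi_apply (hP : Par α β) (z : Q α) : (Phi hP z : ℂ) = phi α β z := rfl
theorem Psi_apply (hP : Par α β) (z : Q α) : (Psi hP z : ℂ) = psi α β z := rfl

/-! ### The parameters on the lower edge -/

theorem b_nonneg {α : ℝ} (h0 : 0 < α) (h : 2 * α ^ 2 < 1) : 0 < b α ∧
    Real.cosh (2 * b α) = 1 / (1 - 2 * α ^ 2) := by
  have h1 : 0 < 1 - 2 * α ^ 2 := by linarith
  have h2 : 1 < 1 / (1 - 2 * α ^ 2) := by
    rw [lt_div_iff₀ h1]; nlinarith
  constructor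
  · unfold b; have := Real.arcosh_pos h2; linarith
  · unfold b
    rw [mul_div_cancel₀ _ (two_ne_zero), Real.cosh_arcosh h2.le]

theorem S_sq {α : ℝ} (h0 : 0 < α) (h : 2 * α ^ 2 < 1) :
    0 < S α ∧ S α ^ 2 = α ^ 2 / (1 - 2 * α ^ 2) := by
  obtain ⟨hb, hc⟩ := b_nonneg h0 h
  have h1 : 0 < 1 - 2 * α ^ 2 := by linarith
  constructor
  · exact Real.sinh_pos_iff.mpr hb
  · rw [Real.cosh_two_mul, Real.cosh_sq] at hc
    have : S α ^ 2 = (1 / (1 - 2 * α ^ 2) - 1) / 2 := by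
      unfold S; linarith
    rw [this]; field_simp; ring

theorem hh_mono {c d : ℝ} (h0 : 0 ≤ c) (hcd : c ≤ d) (hd : d < 1) : hh c ≤ hh d := by
  unfold hh
  rw [Real.arsinh_le_arsinh]
  have h1 : 0 < 1 - d ^ 2 := by nlinarith
  have h2 : 0 < √(1 - d ^ 2) := Real.sqrt_pos.mpr h1
  have h3 : √(1 - d ^ 2) ≤ √(1 - c ^ 2) := Real.sqrt_le_sqrt (by nlinarith)
  exact div_le_div₀ (by linarith) hcd h2 h3

theorem hh_pos {c : ℝ} (h0 : 0 < c) (h1 : c < 1) : 0 < hh c := by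
  unfold hh
  rw [Real.arsinh_pos_iff]
  exact div_pos h0 (Real.sqrt_pos.mpr (by nlinarith))

/-- Elementary inequalities on the lower edge. -/
theorem edge {α : ℝ} (h0 : 0 < α) (h : α < √(2 * √3 - 3)) :
    2 * α ^ 2 < 1 ∧ 0 < √(1 - α ^ 2) - α ^ 2 ∧ 0 < betaLow α ∧ betaLow α < α ∧ α < 1 := by
  have h3 : √3 ^ 2 = 3 := Real.sq_sqrt (by norm_num)
  have h3' : 0 ≤ √3 := Real.sqrt_nonneg _
  have h3l : (17:ℝ)/10 < √3 := by
    apply Real.lt_sqrt_of_sq_lt; norm_num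
  have h3u : √3 < (7:ℝ)/4 := by
    rw [Real.sqrt_lt' (by norm_num)]; norm_num
  have ha2 : α ^ 2 < 2 * √3 - 3 := by
    rw [Real.lt_sqrt h0.le] at h
    exact h
  have ha1 : 2 * α ^ 2 < 1 := by linarith
  have hα1 : α < 1 := by nlinarith
  set s := √(1 - α ^ 2) with hs
  have hs2 : s ^ 2 = 1 - α ^ 2 := Real.sq_sqrt (by linarith)
  have hs0 : 0 ≤ s := Real.sqrt_nonneg _
  have hs1 : √3 - 1 < s := by
    apply Real.lt_sqrt_of_sq_lt
    nlinarith
  have hs3 : s < 1 := by nlinarith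
  have hden : 0 < s - α ^ 2 := by nlinarith
  refine ⟨ha1, hden, ?_, ?_, hα1⟩
  · unfold betaLow
    rw [← hs]
    apply div_pos _ hden
    apply mul_pos h0; linarith
  · unfold betaLow
    rw [← hs, div_lt_iff₀ hden]
    apply mul_lt_mul_of_pos_left _ h0
    nlinarith

theorem par_edge {α : ℝ} (h0 : 0 < α) (h : α < √(2 * √3 - 3)) : Par α (betaLow α) := by
  obtain ⟨h2, hden, hb0, hb1, h1⟩ := edge h0 h
  obtain ⟨hS0, hS2⟩ := S_sq h0 h2
  have hα : |α| < 1 := by rw [abs_of_pos h0]; exact h1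
  have hβ : |betaLow α| < 1 := by rw [abs_of_pos hb0]; linarith
  have q1 : 0 < 1 - 2 * α ^ 2 := by linarith
  have q2 : 0 < 1 - α ^ 2 := by nlinarith
  have q3 : 0 < 1 - betaLow α ^ 2 := by nlinarith
  refine ⟨hα, hβ, hh_pos hb0 (by linarith), hh_mono hb0.le hb1.le h1, ?_, ?_, hS0⟩
  · intro y hy
    unfold hh W
    rw [Real.arsinh_le_arsinh]
    have hy2 : y ^ 2 ≤ S α ^ 2 := by
      rw [← sq_abs y]; nlinarith [abs_nonneg y]
    have r1 : 0 < √(1 - α ^ 2) := Real.sqrt_pos.mpr q2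
    have r2 : 0 < √(1 + y ^ 2) := Real.sqrt_pos.mpr (by positivity)
    have r1' : √(1 - α ^ 2) ^ 2 = 1 - α ^ 2 := Real.sq_sqrt q2.le
    have r2' : √(1 + y ^ 2) ^ 2 = 1 + y ^ 2 := Real.sq_sqrt (by positivity)
    rw [div_le_div_iff₀ r1 r2]
    apply le_of_sq_le_sq _ (by positivity)
    rw [mul_pow, mul_pow, r1', r2']
    have e1 : (1 - α ^ 2) * S α ^ 2 = α ^ 2 * (1 + S α ^ 2) := by
      have : S α ^ 2 * (1 - 2 * α ^ 2) = α ^ 2 := by rw [hS2, div_mul_cancel₀ _ q1.ne']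
      linarith
    nlinarith [sq_nonneg α]
  · intro y
    have hsum : hh α + hh (betaLow α) = Real.arsinh (S α) := by
      apply Real.sinh_injective
      rw [Real.sinh_arsinh, Real.sinh_add, sinh_hh, sinh_hh, cosh_hh hα, cosh_hh hβ]
      have r1 : 0 < √(1 - α ^ 2) := Real.sqrt_pos.mpr q2
      have r2 : 0 < √(1 - betaLow α ^ 2) := Real.sqrt_pos.mpr q3
      have r1' : √(1 - α ^ 2) ^ 2 = 1 - α ^ 2 := Real.sq_sqrt q2.le
      have r2' : √(1 - betaLow α ^ 2) ^ 2 = 1 - betaLow α ^ 2 := Real.sq_sqrt q3.le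
      have e0 : α / √(1 - α ^ 2) * (1 / √(1 - betaLow α ^ 2)) +
          1 / √(1 - α ^ 2) * (betaLow α / √(1 - betaLow α ^ 2)) =
          (α + betaLow α) / (√(1 - α ^ 2) * √(1 - betaLow α ^ 2)) := by
        field_simp
      rw [e0]
      rw [← sq_eq_sq₀ (by positivity) hS0.le, div_pow, mul_pow, r1', r2', hS2]
      rw [div_eq_div_iff (by positivity) (by positivity)]
      have hbe : betaLow α * (√(1 - α ^ 2) - α ^ 2) = α * (1 - √(1 - α ^ 2)) := by
        unfold betaLow; rw [div_mul_cancel₀ _ hden.ne']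
      set s := √(1 - α ^ 2) with hs
      have k : s * (α + betaLow α) = α * (1 + α * betaLow α) := by linarith
      have k2 : (1 - α ^ 2) * (1 - betaLow α ^ 2) =
        (1 + α * betaLow α) ^ 2 - (α + betaLow α) ^ 2 := by ring
      have k3 : s ^ 2 * (α + betaLow α) ^ 2 = α ^ 2 * (1 + α * betaLow α) ^ 2 := by
        rw [← mul_pow, k]; ring
      rw [k2]
      have : α ^ 2 * ((1 + α * betaLow α) ^ 2 - (α + betaLow α) ^ 2) =
        (s ^ 2 - α ^ 2) * (α + betaLow α) ^ 2 := by rw [mul_sub, ← k3]; ring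
      rw [this, r1']; ring
    rw [hsum]
    unfold W
    rw [Real.arsinh_le_arsinh]
    apply div_le_self hS0.le
    rw [Real.one_le_sqrt]; nlinarith [sq_nonneg y]

end Pool.Agent.R788.PI
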