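import Mathlib

set_option autoImplicit false

namespace Pool.Agent.R788.PI

open Complex

/-- The isometry `z ↦ (z + a) / (conj a z + 1)` of the Poincare disk. -/
noncomputable def tau (a z : ℂ) : ℂ := (z + a) / (starRingEnd ℂ a * z + 1)

/-- The hyperbolic distance of the Poincare disk (curvature `-1`):
`cosh d(z, w) = 1 + 2 |z - w|² / ((1 - |z|²) (1 - |w|²))`. -/
noncomputable def hdist (z w : ℂ) : ℝ :=
  Real.arcosh (1 + 2 * ‖z - w‖ ^ 2 / ((1 - ‖z‖ ^ 2) * (1 - ‖w‖ ^ 2)))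

/-- The hyperbolic distance of a point to the imaginary axis of the disk. -/
noncomputable def distIm (z : ℂ) : ℝ :=
  sInf {d | ∃ w : ℂ, ‖w‖ < 1 ∧ w.re = 0 ∧ d = hdist z w}

/-- The hyperbolic distance of a point to the real axis of the disk. -/
noncomputable def distRe (z : ℂ) : ℝ :=
  sInf {d | ∃ w : ℂ, ‖w‖ < 1 ∧ w.im = 0 ∧ d = hdist z w}

/-- The signed distance to the imaginary axis, negative on the left of it. -/
noncomputable def delta (z : ℂ) : ℝ := if z.re < 0 then - distIm z else distIm z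

/-- The signed distance to the real axis, negative below it. -/
noncomputable def deltaRe (z : ℂ) : ℝ := if z.im < 0 then - distRe z else distRe z

/-- The half width of the barrel. -/
noncomputable def b (α : ℝ) : ℝ := Real.arcosh (1 / (1 - 2 * α ^ 2)) / 2

/-- The barrel, with its left and bottom boundary arcs, without its right and top arcs (so that
the lower left corner is the only corner in it). -/
def Q (α : ℝ) : Set ℂ :=
  {z | ‖z‖ < 1 ∧ (-b α ≤ delta z ∧ delta z < b α) ∧ (-b α ≤ deltaRe z ∧ deltaRe z < b α)}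

/-- The translated open half plane `τ_c {δ < s}`. -/
def H (c s : ℝ) : Set ℂ := (fun z => tau c z) '' {z : ℂ | ‖z‖ < 1 ∧ delta z < s}

open Classical in
/-- The piecewise isometry: `τ_β` on the quadrangle, `τ_{-α}` on the lens, `τ_{-α} τ_β` on the
hourglass. -/
noncomputable def phi (α β : ℝ) (z : ℂ) : ℂ :=
  if z ∈ Q α ∩ H (-β) (b α) then tau β z
  else if z ∈ Q α \ H α (-b α) then tau (-α) z
  else tau (-α) (tau β z)

/-- The reflection `z ↦ i conj z`. -/
noncomputable def sig (z : ℂ) : ℂ := I * starRingEnd ℂ z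

/-- The second piecewise isometry `σ φ σ`. -/
noncomputable def psi (α β : ℝ) (z : ℂ) : ℂ := sig (phi α β (sig z))

/-- The lower edge `β_α` of the legal region. -/
noncomputable def betaLow (α : ℝ) : ℝ :=
  α * (1 - √(1 - α ^ 2)) / (√(1 - α ^ 2) - α ^ 2)

/-- The three properties at the point `(α, β_α)` of the lower edge: `φ` and `ψ` are bijections of
the barrel, they are independent, and every non-identity element of the group they generate has
only finitely many fixed points. -/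
def Good (α : ℝ) : Prop :=
  ∃ Φ Ψ : Equiv.Perm (Q α),
    (∀ z : Q α, (Φ z : ℂ) = phi α (betaLow α) z) ∧
    (∀ z : Q α, (Ψ z : ℂ) = psi α (betaLow α) z) ∧
    Function.Injective (FreeGroup.lift (fun i : Bool => if i then Φ else Ψ)) ∧
    ∀ g ∈ Subgroup.closure {Φ, Ψ}, g ≠ 1 → {z | g z = z}.Finite

/-! ### Distances in coordinates -/

/-- Hyperboloid coordinate. -/
noncomputable def X (z : ℂ) : ℝ := 2 * z.re / (1 - normSq z)
/-- Hyperboloid coordinate. -/
noncomputable def Y (z : ℂ) : ℝ := 2 * z.im / (1 - normSq z)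

theorem sig_sig (z : ℂ) : sig (sig z) = z := by
  apply Complex.ext <;> simp [sig]

theorem sig_re (z : ℂ) : (sig z).re = z.im := by simp [sig]
theorem sig_im (z : ℂ) : (sig z).im = z.re := by simp [sig]
theorem normSq_sig (z : ℂ) : normSq (sig z) = normSq z := by
  rw [normSq_apply, normSq_apply, sig_re, sig_im]; ring
theorem norm_sig (z : ℂ) : ‖sig z‖ = ‖z‖ := by simp [sig]
theorem sig_sub (z w : ℂ) : sig z - sig w = sig (z - w) := by
  simp [sig, mul_sub]

theorem hdist_sig (z w : ℂ) : hdist (sig z) (sig w) = hdist z w := by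
  unfold hdist
  rw [sig_sub, norm_sig, norm_sig, norm_sig]

theorem distRe_eq (z : ℂ) : distRe z = distIm (sig z) := by
  unfold distRe distIm
  congr 1
  ext d
  constructor
  · rintro ⟨w, hw, h0, rfl⟩
    exact ⟨sig w, by rwa [norm_sig], by rw [sig_re, h0], (hdist_sig z w).symm⟩
  · rintro ⟨w, hw, h0, rfl⟩
    refine ⟨sig w, by rwa [norm_sig], by rw [sig_im, h0], ?_⟩
    rw [← hdist_sig, sig_sig]

theorem deltaRe_eq (z : ℂ) : deltaRe z = delta (sig z) := by
  unfold deltaRe delta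
  rw [distRe_eq, sig_re]

theorem X_sig (z : ℂ) : X (sig z) = Y z := by
  unfold X Y; rw [sig_re, normSq_sig]
theorem Y_sig (z : ℂ) : Y (sig z) = X z := by
  unfold X Y; rw [sig_im, normSq_sig]

theorem normSq_lt {z : ℂ} (hz : ‖z‖ < 1) : normSq z < 1 := by
  rw [normSq_eq_norm_sq]; nlinarith [norm_nonneg z]

theorem lt_of_normSq {z : ℂ} (hz : normSq z < 1) : ‖z‖ < 1 := by
  rw [normSq_eq_norm_sq] at hz; nlinarith [norm_nonneg z]

theorem distIm_eq {z : ℂ} (hz : ‖z‖ < 1) : distIm z = Real.arsinh |X z| := by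
  have hN : 0 < 1 - normSq z := by linarith [normSq_lt hz]
  set ρ := normSq z with hρ
  have hρe : ρ = z.re ^ 2 + z.im ^ 2 := by rw [hρ, normSq_apply]; ring
  set K := √((1 - ρ) ^ 2 + 4 * z.re ^ 2) with hK
  have hK2 : K ^ 2 = (1 - ρ) ^ 2 + 4 * z.re ^ 2 := Real.sq_sqrt (by positivity)
  have hK0 : 0 ≤ K := Real.sqrt_nonneg _
  have hKN : 1 - ρ ≤ K := by
    rw [hK]; apply Real.le_sqrt_of_sq_le; nlinarith [sq_nonneg z.re]
  have hval : Real.arsinh |X z| = Real.arcosh (K / (1 - ρ)) := by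
    have h1 : Real.cosh (Real.arsinh |X z|) = K / (1 - ρ) := by
      rw [Real.cosh_arsinh, sq_abs]
      rw [Real.sqrt_eq_iff_mul_self_eq (by positivity) (by positivity)]
      unfold X
      rw [← hρ]
      field_simp
      nlinarith [hK2]
    rw [← h1, Real.arcosh_cosh (Real.arsinh_nonneg_iff.mpr (abs_nonneg _))]
  -- the main inequality
  have hsum : 0 < 1 + ρ + K := by
    have : 0 ≤ ρ := normSq_nonneg z
    linarith
  have key : ∀ w : ℂ, ‖w‖ < 1 → w.re = 0 →
      1 + 2 * ‖z - w‖ ^ 2 / ((1 - ‖z‖ ^ 2) * (1 - ‖w‖ ^ 2)) =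
        K / (1 - ρ) + (1 + ρ + K) * (w.im - 2 * z.im / (1 + ρ + K)) ^ 2 /
          ((1 - ρ) * (1 - w.im ^ 2)) := by
    intro w hw h0
    have e1 : ‖z - w‖ ^ 2 = z.re ^ 2 + (z.im - w.im) ^ 2 := by
      rw [← normSq_eq_norm_sq, normSq_apply, sub_re, sub_im, h0]; ring
    have e2 : ‖w‖ ^ 2 = w.im ^ 2 := by
      rw [← normSq_eq_norm_sq, normSq_apply, h0]; ring
    have e3 : ‖z‖ ^ 2 = ρ := by rw [← normSq_eq_norm_sq]
    have hw2 : 0 < 1 - w.im ^ 2 := by
      rw [← e2]; nlinarith [norm_nonneg w]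
    rw [e1, e2, e3]
    have hz2 : z.im ^ 2 = ρ - z.re ^ 2 := by linarith
    field_simp
    have h4 : 4 * z.re ^ 2 = K ^ 2 - (1 - ρ) ^ 2 := by linarith
    have hzz : 4 * z.im ^ 2 = (1 + ρ) ^ 2 - K ^ 2 := by nlinarith
    linear_combination (1 + ρ + K) * (1/2 : ℝ) * h4 + (ρ - 1 + K) * (1/2 : ℝ) * hzz
  have hge : ∀ w : ℂ, ‖w‖ < 1 → w.re = 0 → K / (1 - ρ) ≤
      1 + 2 * ‖z - w‖ ^ 2 / ((1 - ‖z‖ ^ 2) * (1 - ‖w‖ ^ 2)) := by
    intro w hw h0
    rw [key w hw h0]
    have hw2 : 0 < 1 - w.im ^ 2 := by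
      have e2 : ‖w‖ ^ 2 = w.im ^ 2 := by
        rw [← normSq_eq_norm_sq, normSq_apply, h0]; ring
      rw [← e2]; nlinarith [norm_nonneg w]
    have : 0 ≤ (1 + ρ + K) * (w.im - 2 * z.im / (1 + ρ + K)) ^ 2 /
          ((1 - ρ) * (1 - w.im ^ 2)) := by positivity
    linarith
  have hKpos : 0 < K / (1 - ρ) := by
    apply div_pos _ hN
    linarith
  rw [hval]
  -- the minimizer
  set y0 := 2 * z.im / (1 + ρ + K) with hy0
  have hy1 : |y0| < 1 := by
    rw [hy0, abs_div, abs_of_pos hsum, div_lt_one hsum, abs_mul, abs_two]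
    have : |z.im| ^ 2 ≤ ρ := by rw [sq_abs, hρe]; nlinarith [sq_nonneg z.re]
    nlinarith [abs_nonneg z.im, sq_nonneg (|z.im| - 1)]
  have hleast : IsLeast {d | ∃ w : ℂ, ‖w‖ < 1 ∧ w.re = 0 ∧ d = hdist z w}
      (Real.arcosh (K / (1 - ρ))) := by
    constructor
    · have hn : ‖(⟨0, y0⟩ : ℂ)‖ < 1 := by
        apply lt_of_normSq
        rw [normSq_apply]
        simp only [mul_zero, zero_add]
        have := abs_lt.mp hy1
        nlinarith
      refine ⟨⟨0, y0⟩, hn, rfl, ?_⟩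
      unfold hdist
      rw [key _ hn rfl]
      simp [← hy0]
    · rintro d ⟨w, hw, h0, rfl⟩
      unfold hdist
      exact (Real.arcosh_le_arcosh hKpos (lt_of_lt_of_le hKpos (hge w hw h0))).mpr (hge w hw h0)
  exact hleast.csInf_eq

theorem delta_eq {z : ℂ} (hz : ‖z‖ < 1) : delta z = Real.arsinh (X z) := by
  have hN : 0 < 1 - normSq z := by linarith [normSq_lt hz]
  unfold delta
  split_ifs with h
  · rw [distIm_eq hz, ← Real.arsinh_neg]
    congr 1
    have : X z < 0 := by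
      unfold X; apply div_neg_of_neg_of_pos _ hN; linarith
    rw [abs_of_neg this]; ring
  · rw [distIm_eq hz]
    congr 1
    have : 0 ≤ X z := by
      unfold X; apply div_nonneg _ hN.le; push Not at h; linarith
    rw [abs_of_nonneg this]

theorem deltaRe_eq' {z : ℂ} (hz : ‖z‖ < 1) : deltaRe z = Real.arsinh (Y z) := by
  rw [deltaRe_eq, delta_eq (by rwa [norm_sig]), X_sig]

/-- `S = sinh b`. -/
noncomputable def S (α : ℝ) : ℝ := Real.sinh (b α)

theorem mem_Q {α : ℝ} {z : ℂ} : z ∈ Q α ↔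
    ‖z‖ < 1 ∧ (-S α ≤ X z ∧ X z < S α) ∧ (-S α ≤ Y z ∧ Y z < S α) := by
  unfold Q
  simp only [Set.mem_setOf_eq]
  constructor
  · rintro ⟨hz, h1, h2⟩
    rw [delta_eq hz] at h1
    rw [deltaRe_eq' hz] at h2
    refine ⟨hz, ⟨?_, ?_⟩, ?_, ?_⟩
    · have := Real.sinh_le_sinh.mpr h1.1
      rwa [Real.sinh_neg, Real.sinh_arsinh] at this
    · have := Real.sinh_lt_sinh.mpr h1.2
      rwa [Real.sinh_arsinh] at this
    · have := Real.sinh_le_sinh.mpr h2.1
      rwa [Real.sinh_neg, Real.sinh_arsinh] at this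
    · have := Real.sinh_lt_sinh.mpr h2.2
      rwa [Real.sinh_arsinh] at this
  · rintro ⟨hz, h1, h2⟩
    rw [delta_eq hz, deltaRe_eq' hz]
    refine ⟨hz, ⟨?_, ?_⟩, ?_, ?_⟩
    · rw [← Real.sinh_le_sinh, Real.sinh_neg, Real.sinh_arsinh]; exact h1.1
    · rw [← Real.sinh_lt_sinh, Real.sinh_arsinh]; exact h1.2
    · rw [← Real.sinh_le_sinh, Real.sinh_neg, Real.sinh_arsinh]; exact h2.1
    · rw [← Real.sinh_lt_sinh, Real.sinh_arsinh]; exact h2.2

theorem sig_mem_Q {α : ℝ} {z : ℂ} (h : z ∈ Q α) : sig z ∈ Q α := by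
  rw [mem_Q] at h ⊢
  rw [norm_sig, X_sig, Y_sig]
  exact ⟨h.1, h.2.2, h.2.1⟩

end Pool.Agent.R788.PI
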