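import Pool.Agent.R788.PI.Defs

set_option autoImplicit false

namespace Pool.Agent.R788.PI

open Complex

/-- Half translation length. -/
noncomputable def hh (c : ℝ) : ℝ := Real.arsinh (c / √(1 - c ^ 2))

theorem hh_neg (c : ℝ) : hh (-c) = - hh c := by
  unfold hh
  rw [← Real.arsinh_neg]
  congr 1
  rw [neg_div]
  congr 3
  ring

theorem sinh_hh (c : ℝ) : Real.sinh (hh c) = c / √(1 - c ^ 2) := by
  unfold hh; rw [Real.sinh_arsinh]

theorem cosh_hh {c : ℝ} (hc : |c| < 1) : Real.cosh (hh c) = 1 / √(1 - c ^ 2) := by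
  unfold hh
  have h1 : 0 < 1 - c ^ 2 := by have := abs_lt.mp hc; nlinarith
  have h2 : 0 < √(1 - c ^ 2) := Real.sqrt_pos.mpr h1
  have h3 : √(1 - c ^ 2) ^ 2 = 1 - c ^ 2 := Real.sq_sqrt h1.le
  rw [Real.cosh_arsinh, Real.sqrt_eq_iff_mul_self_eq (by positivity) (by positivity)]
  field_simp
  linarith

theorem cosh_two_hh {c : ℝ} (hc : |c| < 1) :
    Real.cosh (2 * hh c) = (1 + c ^ 2) / (1 - c ^ 2) := by
  have h1 : 0 < 1 - c ^ 2 := by have := abs_lt.mp hc; nlinarith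
  have h2 : 0 < √(1 - c ^ 2) := Real.sqrt_pos.mpr h1
  have h3 : √(1 - c ^ 2) ^ 2 = 1 - c ^ 2 := Real.sq_sqrt h1.le
  rw [Real.cosh_two_mul, cosh_hh hc, sinh_hh, div_pow, div_pow, h3]
  field_simp

theorem sinh_two_hh {c : ℝ} (hc : |c| < 1) :
    Real.sinh (2 * hh c) = 2 * c / (1 - c ^ 2) := by
  have h1 : 0 < 1 - c ^ 2 := by have := abs_lt.mp hc; nlinarith
  have h2 : 0 < √(1 - c ^ 2) := Real.sqrt_pos.mpr h1
  have h3 : √(1 - c ^ 2) ^ 2 = 1 - c ^ 2 := Real.sq_sqrt h1.le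
  rw [Real.sinh_two_mul, cosh_hh hc, sinh_hh]
  field_simp
  rw [h3]

/-- Coordinate along the translation lines. -/
noncomputable def v (z : ℂ) : ℝ := Real.arsinh (X z / √(1 + Y z ^ 2))
/-- Half width of the barrel along a translation line. -/
noncomputable def W (α : ℝ) (y : ℝ) : ℝ := Real.arsinh (S α / √(1 + y ^ 2))

theorem tau_den {c : ℝ} {z : ℂ} (hc : |c| < 1) (hz : ‖z‖ < 1) : (c : ℂ) * z + 1 ≠ 0 := by
  intro h
  have h1 : (c : ℂ) * z = -1 := by linear_combination h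
  have h2 : ‖(c : ℂ) * z‖ = 1 := by rw [h1]; simp
  rw [norm_mul, norm_real, Real.norm_eq_abs] at h2
  nlinarith [abs_nonneg c, norm_nonneg z]

theorem tau_real (c : ℝ) (z : ℂ) : tau c z = (z + c) / (c * z + 1) := by
  unfold tau; rw [conj_ofReal]

theorem normSq_den (c : ℝ) (z : ℂ) :
    normSq ((c : ℂ) * z + 1) - normSq (z + c) = (1 - c ^ 2) * (1 - normSq z) := by
  simp only [normSq_apply, add_re, add_im, mul_re, mul_im, ofReal_re, ofReal_im, one_re, one_im]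
  ring

theorem one_sub_normSq_tau {c : ℝ} {z : ℂ} (hc : |c| < 1) (hz : ‖z‖ < 1) :
    1 - normSq (tau c z) = (1 - c ^ 2) * (1 - normSq z) / normSq ((c : ℂ) * z + 1) := by
  have hd : normSq ((c : ℂ) * z + 1) ≠ 0 := by
    rw [ne_eq, normSq_eq_zero]; exact tau_den hc hz
  rw [tau_real, normSq_div, ← normSq_den, eq_div_iff hd, sub_mul, one_mul, div_mul_cancel₀ _ hd]

theorem norm_tau_lt {c : ℝ} {z : ℂ} (hc : |c| < 1) (hz : ‖z‖ < 1) : ‖tau c z‖ < 1 := by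
  apply lt_of_normSq
  have h1 : 0 < 1 - c ^ 2 := by have := abs_lt.mp hc; nlinarith
  have h2 : 0 < 1 - normSq z := by linarith [normSq_lt hz]
  have hd : 0 < normSq ((c : ℂ) * z + 1) := normSq_pos.mpr (tau_den hc hz)
  have : 0 < 1 - normSq (tau c z) := by
    rw [one_sub_normSq_tau hc hz]; positivity
  linarith

theorem tau_re_im {c : ℝ} {z : ℂ} (hc : |c| < 1) (hz : ‖z‖ < 1) :
    (tau c z).re * normSq ((c : ℂ) * z + 1) = c * normSq z + c + (1 + c ^ 2) * z.re ∧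
    (tau c z).im * normSq ((c : ℂ) * z + 1) = (1 - c ^ 2) * z.im := by
  have hd : (c : ℂ) * z + 1 ≠ 0 := tau_den hc hz
  have h : tau c z * normSq ((c : ℂ) * z + 1) = (z + c) * starRingEnd ℂ ((c : ℂ) * z + 1) := by
    rw [tau_real, ← mul_conj, div_mul_eq_mul_div, div_eq_iff hd]
    ring
  have hre := congrArg re h
  have him := congrArg im h
  simp only [mul_re, mul_im, add_re, add_im, ofReal_re, ofReal_im, conj_re, conj_im, one_re,
    one_im, map_add, map_mul, conj_ofReal, map_one] at hre him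
  constructor
  · rw [normSq_apply z]; linarith
  · linarith

theorem Y_tau {c : ℝ} {z : ℂ} (hc : |c| < 1) (hz : ‖z‖ < 1) : Y (tau c z) = Y z := by
  have h1 : 0 < 1 - c ^ 2 := by have := abs_lt.mp hc; nlinarith
  have h2 : 0 < 1 - normSq z := by linarith [normSq_lt hz]
  have hd : 0 < normSq ((c : ℂ) * z + 1) := normSq_pos.mpr (tau_den hc hz)
  unfold Y
  rw [one_sub_normSq_tau hc hz]
  have := (tau_re_im hc hz).2
  have e : (tau c z).im = (1 - c ^ 2) * z.im / normSq ((c : ℂ) * z + 1) := by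
    field_simp; linarith
  rw [e]
  field_simp

theorem X_tau {c : ℝ} {z : ℂ} (hc : |c| < 1) (hz : ‖z‖ < 1) : X (tau c z) =
    Real.cosh (2 * hh c) * X z + Real.sinh (2 * hh c) * ((1 + normSq z) / (1 - normSq z)) := by
  have h1 : 0 < 1 - c ^ 2 := by have := abs_lt.mp hc; nlinarith
  have h2 : 0 < 1 - normSq z := by linarith [normSq_lt hz]
  have hd : 0 < normSq ((c : ℂ) * z + 1) := normSq_pos.mpr (tau_den hc hz)
  rw [cosh_two_hh hc, sinh_two_hh hc]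
  unfold X
  rw [one_sub_normSq_tau hc hz]
  have := (tau_re_im hc hz).1
  have e : (tau c z).re = (c * normSq z + c + (1 + c ^ 2) * z.re) / normSq ((c : ℂ) * z + 1) := by
    field_simp; linarith
  rw [e]
  field_simp
  ring

theorem sinh_v (z : ℂ) : Real.sinh (v z) = X z / √(1 + Y z ^ 2) := by
  unfold v; rw [Real.sinh_arsinh]

theorem cosh_v {z : ℂ} (hz : ‖z‖ < 1) :
    Real.cosh (v z) = ((1 + normSq z) / (1 - normSq z)) / √(1 + Y z ^ 2) := by
  have h2 : 0 < 1 - normSq z := by linarith [normSq_lt hz]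
  have h4 := normSq_nonneg z
  have hs : 0 < √(1 + Y z ^ 2) := Real.sqrt_pos.mpr (by positivity)
  have hs2 : √(1 + Y z ^ 2) ^ 2 = 1 + Y z ^ 2 := Real.sq_sqrt (by positivity)
  unfold v
  rw [Real.cosh_arsinh, Real.sqrt_eq_iff_mul_self_eq (by positivity) (by positivity)]
  rw [div_mul_div_comm, ← sq √(1 + Y z ^ 2), div_pow, hs2]
  have h5 : (0:ℝ) < 1 + Y z ^ 2 := by positivity
  have h6 : (1 + (X z / √(1 + Y z ^ 2)) ^ 2) * (1 + Y z ^ 2) = 1 + Y z ^ 2 + X z ^ 2 := by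
    rw [div_pow, hs2]; field_simp
  rw [eq_div_iff h5.ne']
  rw [div_pow, hs2] at h6
  rw [h6]
  unfold X Y
  have : normSq z = z.re ^ 2 + z.im ^ 2 := by rw [normSq_apply]; ring
  field_simp
  rw [this]
  ring

theorem v_tau {c : ℝ} {z : ℂ} (hc : |c| < 1) (hz : ‖z‖ < 1) : v (tau c z) = v z + 2 * hh c := by
  apply Real.sinh_injective
  rw [sinh_v, Real.sinh_add, sinh_v, cosh_v hz, Y_tau hc hz, X_tau hc hz]
  ring

theorem tau_tau_neg {c : ℝ} {z : ℂ} (hc : |c| < 1) (hz : ‖z‖ < 1) : tau c (tau (-c : ℝ) z) = z := by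
  have hc' : |-c| < 1 := by rwa [abs_neg]
  have h1 : (1 : ℂ) - (c : ℂ) ^ 2 ≠ 0 := by
    have : (0:ℝ) < 1 - c ^ 2 := by have := abs_lt.mp hc; nlinarith
    exact_mod_cast this.ne'
  have hd := tau_den hc' hz
  have hd2 := tau_den hc (norm_tau_lt hc' hz)
  rw [tau_real (-c)] at hd2
  rw [tau_real c, tau_real (-c)]
  push_cast at hd hd2 ⊢
  rw [div_eq_iff hd2]
  have e1 : (z + -(c : ℂ)) / (-(c : ℂ) * z + 1) * (-(c : ℂ) * z + 1) = z + -(c : ℂ) :=
    div_mul_cancel₀ _ hd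
  apply mul_right_cancel₀ hd
  linear_combination (1 - z * c) * e1

theorem lt_iff_v {α : ℝ} {z : ℂ} : X z < S α ↔ v z < W α (Y z) := by
  unfold v W
  rw [Real.arsinh_lt_arsinh]
  have hs : 0 < √(1 + Y z ^ 2) := Real.sqrt_pos.mpr (by positivity)
  rw [div_lt_div_iff_of_pos_right hs]

theorem le_iff_v {α : ℝ} {z : ℂ} : - S α ≤ X z ↔ - W α (Y z) ≤ v z := by
  unfold v W
  rw [← Real.arsinh_neg, Real.arsinh_le_arsinh, ← neg_div]
  have hs : 0 < √(1 + Y z ^ 2) := Real.sqrt_pos.mpr (by positivity)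
  rw [div_le_div_iff_of_pos_right hs]

theorem mem_Q' {α : ℝ} {z : ℂ} : z ∈ Q α ↔
    ‖z‖ < 1 ∧ (-W α (Y z) ≤ v z ∧ v z < W α (Y z)) ∧ (-S α ≤ Y z ∧ Y z < S α) := by
  rw [mem_Q, lt_iff_v, le_iff_v]

/-- Membership in the translated half planes. -/
theorem mem_H {c s : ℝ} {z : ℂ} (hc : |c| < 1) (hz : ‖z‖ < 1) :
    z ∈ H c s ↔ X (tau (-c : ℝ) z) < Real.sinh s := by
  have hc' : |-c| < 1 := by rwa [abs_neg]
  unfold H
  simp only [Set.mem_image, Set.mem_ofPred_eq]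
  constructor
  · rintro ⟨w, ⟨hw, hd⟩, rfl⟩
    have : tau (-c : ℝ) (tau c w) = w := by
      have := tau_tau_neg hc' hw
      rwa [neg_neg] at this
    rw [this]
    rw [delta_eq hw] at hd
    have := Real.sinh_lt_sinh.mpr hd
    rwa [Real.sinh_arsinh] at this
  · intro h
    refine ⟨tau (-c : ℝ) z, ⟨norm_tau_lt hc' hz, ?_⟩, tau_tau_neg hc hz⟩
    rw [delta_eq (norm_tau_lt hc' hz), ← Real.sinh_lt_sinh, Real.sinh_arsinh]
    exact h

theorem mem_quad {α β : ℝ} {z : ℂ} (hβ : |β| < 1) (hz : ‖z‖ < 1) :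
    z ∈ H (-β) (b α) ↔ v z + 2 * hh β < W α (Y z) := by
  rw [mem_H (by rwa [abs_neg]) hz, neg_neg]
  change X (tau β z) < S α ↔ _
  rw [lt_iff_v, v_tau hβ hz, Y_tau hβ hz]

theorem mem_lens {α : ℝ} {z : ℂ} (hα : |α| < 1) (hz : ‖z‖ < 1) :
    z ∉ H α (-b α) ↔ - W α (Y z) ≤ v z - 2 * hh α := by
  rw [mem_H hα hz, Real.sinh_neg, not_lt]
  change - S α ≤ X (tau (-α : ℝ) z) ↔ _
  have hα' : |-α| < 1 := by rwa [abs_neg]
  rw [le_iff_v, v_tau hα' hz, Y_tau hα' hz, hh_neg]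
  constructor <;> intro h <;> linarith

end Pool.Agent.R788.PI
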