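import Mathlib

set_option autoImplicit false

namespace Pool.Agent.R788.PI

open Complex Polynomial

/-- Sign of a letter. -/
def sgn (e : Bool) : ℝ := if e then 1 else -1

theorem sgn_sq (e : Bool) : sgn e ^ 2 = 1 := by cases e <;> simp [sgn]

/-- Horizontal (`t = true`) and vertical translation matrices. -/
noncomputable def Gr (t : Bool) (d x : ℝ) : Matrix (Fin 2) (Fin 2) ℂ :=
  if t then !![(d : ℂ), (x : ℂ); (x : ℂ), (d : ℂ)]
  else !![(d : ℂ), I * (x : ℂ); -(I * (x : ℂ)), (d : ℂ)]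

/-- The main coordinate of a vector for a direction. -/
noncomputable def mc (t : Bool) (p : Fin 2 → ℂ) : ℝ :=
  if t then (p 0 * starRingEnd ℂ (p 1)).re else (p 0 * starRingEnd ℂ (p 1)).im
/-- The other coordinate. -/
noncomputable def oc (t : Bool) (p : Fin 2 → ℂ) : ℝ :=
  if t then (p 0 * starRingEnd ℂ (p 1)).im else (p 0 * starRingEnd ℂ (p 1)).re

/-- Base condition. -/
def Bs (p : Fin 2 → ℂ) : Prop := normSq (p 0) = normSq (p 1)

theorem mc_sq (t : Bool) {p : Fin 2 → ℂ} (h : Bs p) :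
    mc t p ^ 2 + oc t p ^ 2 = normSq (p 1) ^ 2 := by
  have h1 : normSq (p 0 * starRingEnd ℂ (p 1)) = normSq (p 1) ^ 2 := by
    rw [normSq_mul, normSq_conj, h]; ring
  rw [normSq_apply] at h1
  cases t
  · simp only [mc, oc, Bool.false_eq_true, if_false]; linarith
  · simp only [mc, oc, if_true]; linarith

theorem Gr_act (t : Bool) (d x : ℝ) {p : Fin 2 → ℂ} (h : Bs p) :
    Bs ((Gr t d x).mulVec p) ∧
    mc t ((Gr t d x).mulVec p) = (d ^ 2 + x ^ 2) * mc t p + 2 * d * x * normSq (p 1) ∧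
    oc t ((Gr t d x).mulVec p) = (d ^ 2 - x ^ 2) * oc t p ∧
    normSq ((Gr t d x).mulVec p 1) = (d ^ 2 + x ^ 2) * normSq (p 1) + 2 * d * x * mc t p := by
  unfold Bs at h ⊢
  cases t
  · simp only [Gr, mc, oc, Bool.false_eq_true, if_false, Matrix.mulVec, dotProduct,
      Fin.sum_univ_two, Matrix.cons_val_zero, Matrix.cons_val_one, Matrix.of_apply]
    rw [normSq_apply, normSq_apply] at h
    simp only [normSq_apply, mul_re, mul_im, add_re, add_im, neg_re, neg_im, ofReal_re,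
      ofReal_im, I_re, I_im, conj_re, conj_im, map_add, map_mul, map_neg]
    refine ⟨by linear_combination (d ^ 2 - x ^ 2) * h, ?_, ?_, ?_⟩
    · linear_combination (d * x) * h
    · ring
    · linear_combination (x ^ 2) * h
  · simp only [Gr, mc, oc, if_true, Matrix.mulVec, dotProduct,
      Fin.sum_univ_two, Matrix.cons_val_zero, Matrix.cons_val_one, Matrix.of_apply]
    rw [normSq_apply, normSq_apply] at h
    simp only [normSq_apply, mul_re, mul_im, add_re, add_im, neg_re, neg_im, ofReal_re,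
      ofReal_im, I_re, I_im, conj_re, conj_im, map_add, map_mul, map_neg]
    refine ⟨by linear_combination (d ^ 2 - x ^ 2) * h, ?_, ?_, ?_⟩
    · linear_combination (d * x) * h
    · ring
    · linear_combination (x ^ 2) * h

/-- First region. -/
def S1 (t : Bool) (σ : ℝ) (p : Fin 2 → ℂ) : Prop :=
  oc t p ≠ 0 ∧ |oc t p| / 2 < -(3 / 2) * σ * mc t p + √2 * normSq (p 1)

/-- The attracting point. -/
def S3 (t : Bool) (σ : ℝ) (p : Fin 2 → ℂ) : Prop :=
  oc t p = 0 ∧ σ * mc t p = normSq (p 1) ∧ 0 < normSq (p 1)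

/-- The region after a letter. -/
def F (t : Bool) (σ : ℝ) (p : Fin 2 → ℂ) : Prop :=
  (oc t p ≠ 0 ∧ |oc t p| < - σ * mc t p) ∨ S3 t σ p

theorem sqrt_le {m o r : ℝ} (hr : 0 ≤ r) (h : m ^ 2 + o ^ 2 = r ^ 2) : |m| + |o| ≤ √2 * r := by
  have h2 : √2 ^ 2 = 2 := Real.sq_sqrt (by norm_num)
  apply le_of_sq_le_sq _ (by positivity)
  rw [mul_pow, h2, ← h]
  nlinarith [sq_nonneg (|m| - |o|), sq_abs m, sq_abs o]

theorem F_S1 {t : Bool} {σ : ℝ} (hσ : σ ^ 2 = 1) {p : Fin 2 → ℂ} (hp : Bs p) (h : F t σ p) :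
    S1 t σ p ∨ S3 t σ p := by
  rcases h with ⟨h1, h2⟩ | h
  · left
    refine ⟨h1, ?_⟩
    have h3 := sqrt_le (normSq_nonneg (p 1)) (mc_sq t hp)
    have h4 := abs_nonneg (mc t p)
    have h5 := abs_pos.mpr h1
    nlinarith
  · exact Or.inr h

theorem F_cross {t t' : Bool} (ht : t' ≠ t) {σ σ' : ℝ} (hσ : σ ^ 2 = 1) (hσ' : σ' ^ 2 = 1)
    {p : Fin 2 → ℂ} (hp : Bs p) (h : F t σ p) : S1 t' σ' p := by
  have e1 : mc t' p = oc t p := by
    cases t <;> cases t' <;> simp_all [mc, oc]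
  have e2 : oc t' p = mc t p := by
    cases t <;> cases t' <;> simp_all [mc, oc]
  have hs : ∀ s : ℝ, s ^ 2 = 1 → ∀ y : ℝ, s * y ≤ |y| ∧ - s * y ≤ |y| := by
    intro s hs y
    have : |s| = 1 := by
      have : |s| ^ 2 = 1 := by rw [sq_abs, hs]
      nlinarith [abs_nonneg s]
    have h3 := le_abs_self (s * y)
    have h4 := neg_abs_le (s * y)
    rw [abs_mul, this, one_mul] at h3 h4
    constructor <;> linarith
  have hlt : |oc t p| < |mc t p| := by
    rcases h with ⟨h1, h2⟩ | ⟨h1, h2, h3⟩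
    · exact lt_of_lt_of_le h2 (hs σ hσ _).2
    · rw [h1, abs_zero]
      have := (hs σ hσ (mc t p)).1
      linarith
  unfold S1
  rw [e1, e2]
  refine ⟨abs_pos.mp (lt_of_le_of_lt (abs_nonneg _) hlt), ?_⟩
  have h3 := sqrt_le (normSq_nonneg (p 1)) (mc_sq t hp)
  have h4 := (hs σ' hσ' (oc t p)).1
  linarith

/-- One step with the contraction matrix. -/
theorem stepA {t : Bool} {σ : ℝ} (hσ : σ ^ 2 = 1) {d x : ℝ} (hd : 0 < d) (hx : x ^ 2 = d ^ 2 / 2)
    (hdx : 2 * d * x = - σ * √2 * d ^ 2) {p : Fin 2 → ℂ} (hp : Bs p)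
    (h : S1 t σ p ∨ S3 t σ p) : Bs ((Gr t d x).mulVec p) ∧ F t σ ((Gr t d x).mulVec p) := by
  obtain ⟨g1, g2, g3, g4⟩ := Gr_act t d x hp
  refine ⟨g1, ?_⟩
  have hd2 : 0 < d ^ 2 := by positivity
  have s2 : √2 ^ 2 = 2 := Real.sq_sqrt (by norm_num)
  have s3 : √2 < 3 / 2 := by
    rw [Real.sqrt_lt' (by norm_num)]; norm_num
  rcases h with ⟨h1, h2⟩ | ⟨h1, h2, h3⟩
  · left
    rw [g3, g2]
    constructor
    · rw [hx]
      apply mul_ne_zero _ h1
      linarith
    · rw [hx, abs_mul, abs_of_pos (by linarith : 0 < d ^ 2 - d ^ 2 / 2), hdx]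
      have : -σ * ((d ^ 2 + d ^ 2 / 2) * mc t p + -σ * √2 * d ^ 2 * normSq (p 1)) =
        d ^ 2 * (-(3 / 2) * σ * mc t p + √2 * normSq (p 1)) := by
        linear_combination (√2 * d ^ 2 * normSq (p 1)) * hσ
      rw [this]
      have := mul_lt_mul_of_pos_left h2 hd2
      linarith
  · right
    unfold S3
    rw [g3, g2, g4, h1, hx, hdx]
    have hm : mc t p = σ * normSq (p 1) := by
      linear_combination σ * h2 - mc t p * hσ
    refine ⟨by ring, ?_, ?_⟩
    · rw [hm]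
      linear_combination (d ^ 2 + d ^ 2 / 2) * normSq (p 1) * hσ +
        0 * hσ
    · rw [hm]
      have : (d ^ 2 + d ^ 2 / 2) * normSq (p 1) + -σ * √2 * d ^ 2 * (σ * normSq (p 1)) =
        d ^ 2 * (3 / 2 - √2) * normSq (p 1) := by
        linear_combination (- √2 * d ^ 2 * normSq (p 1)) * hσ
      rw [this]
      have : 0 < 3 / 2 - √2 := by linarith
      positivity

/-- One step with the degenerate matrix. -/
theorem stepB {t : Bool} {σ : ℝ} (hσ : σ ^ 2 = 1) {d x : ℝ} (hd : 0 < d) (hx : x = σ * d)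
    {p : Fin 2 → ℂ} (hp : Bs p)
    (h : S1 t σ p ∨ S3 t σ p) : Bs ((Gr t d x).mulVec p) ∧ F t σ ((Gr t d x).mulVec p) := by
  obtain ⟨g1, g2, g3, g4⟩ := Gr_act t d x hp
  refine ⟨g1, ?_⟩
  have hd2 : 0 < d ^ 2 := by positivity
  have hx2 : x ^ 2 = d ^ 2 := by rw [hx]; linear_combination d ^ 2 * hσ
  have hdx : 2 * d * x = 2 * σ * d ^ 2 := by rw [hx]; ring
  have hpos : 0 < normSq (p 1) + σ * mc t p := by
    rcases h with ⟨h1, h2⟩ | ⟨h1, h2, h3⟩
    · have h4 := mc_sq t hp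
      have h5 : 0 < oc t p ^ 2 := by positivity
      have h6 := normSq_nonneg (p 1)
      have h7 : (σ * mc t p) ^ 2 < normSq (p 1) ^ 2 := by
        rw [mul_pow, hσ, one_mul]; linarith
      have := abs_lt_of_sq_lt_sq h7 h6
      have := (abs_lt.mp this).1
      linarith
    · rw [h2]; linarith
  right
  unfold S3
  rw [g3, g2, g4, hx2, hdx]
  refine ⟨by ring, ?_, ?_⟩
  · linear_combination (2 * d ^ 2 * normSq (p 1)) * hσ
  · have : (d ^ 2 + d ^ 2) * normSq (p 1) + 2 * σ * d ^ 2 * mc t p =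
      2 * d ^ 2 * (normSq (p 1) + σ * mc t p) := by ring
    rw [this]
    positivity

/-! ### The polynomial matrices -/

/-- Polynomial translation matrices. -/
noncomputable def G (t : Bool) (d x : ℂ[X]) : Matrix (Fin 2) (Fin 2) ℂ[X] :=
  if t then !![d, x; x, d] else !![d, C I * x; -(C I * x), d]

/-- Sign as a polynomial. -/
noncomputable def sg (e : Bool) : ℂ[X] := if e then 1 else -1

/-- Matrix of `τ_{±β}`. -/
noncomputable def Bm (t e : Bool) : Matrix (Fin 2) (Fin 2) ℂ[X] :=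
  G t (1 - 4 * X ^ 2 - X ^ 4) (sg e * (4 * X ^ 3))
/-- Matrix of `τ_{∓α}`. -/
noncomputable def Am (t e : Bool) : Matrix (Fin 2) (Fin 2) ℂ[X] :=
  G t (1 + X ^ 2) (-(sg e * (2 * X)))

/-- Matrix of a letter with a choice of the piece. -/
noncomputable def E (a : (Bool × Bool) × Fin 3) : Matrix (Fin 2) (Fin 2) ℂ[X] :=
  match a.2 with
  | 0 => Bm a.1.1 a.1.2
  | 1 => Am a.1.1 a.1.2
  | 2 => Am a.1.1 a.1.2 * Bm a.1.1 a.1.2

/-- Evaluation at a real number. -/
noncomputable def ev (u : ℝ) : ℂ[X] →+* ℂ := evalRingHom (u : ℂ)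

theorem G_map (t : Bool) (d x : ℂ[X]) (u d' x' : ℝ) (hd : ev u d = (d' : ℂ))
    (hx : ev u x = (x' : ℂ)) : (G t d x).map (ev u) = Gr t d' x' := by
  have hI : ev u (C I) = I := by simp [ev]
  cases t
  · ext i j
    fin_cases i <;> fin_cases j <;> simp [G, Gr, hd, hx, hI]
  · ext i j
    fin_cases i <;> fin_cases j <;> simp [G, Gr, hd, hx]

theorem ev_sg (u : ℝ) (e : Bool) : ev u (sg e) = (sgn e : ℂ) := by
  cases e <;> simp [sg, sgn, ev]

theorem Bm_map (t e : Bool) (u : ℝ) :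
    (Bm t e).map (ev u) = Gr t (1 - 4 * u ^ 2 - u ^ 4) (sgn e * (4 * u ^ 3)) := by
  apply G_map
  · simp [ev]
  · rw [map_mul, ev_sg]; simp [ev]

theorem Am_map (t e : Bool) (u : ℝ) :
    (Am t e).map (ev u) = Gr t (1 + u ^ 2) (-(sgn e * (2 * u))) := by
  apply G_map
  · simp [ev]
  · rw [map_neg, map_mul, ev_sg]; simp [ev]

/-- The special parameter. -/
noncomputable def u1 : ℝ := √2 - 1

theorem u1_facts : 0 < 1 + u1 ^ 2 ∧ (2 * u1) ^ 2 = (1 + u1 ^ 2) ^ 2 / 2 ∧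
    2 * (1 + u1 ^ 2) * (2 * u1) = √2 * (1 + u1 ^ 2) ^ 2 ∧ 0 < 1 - 4 * u1 ^ 2 - u1 ^ 4 ∧
    4 * u1 ^ 3 = 1 - 4 * u1 ^ 2 - u1 ^ 4 := by
  have s2 : √2 ^ 2 = 2 := Real.sq_sqrt (by norm_num)
  have s3 : (141 : ℝ) / 100 < √2 := by apply Real.lt_sqrt_of_sq_lt; norm_num
  have s4 : √2 < (142 : ℝ) / 100 := by
    rw [Real.sqrt_lt' (by norm_num)]; norm_num
  have s5 : √2 ^ 3 = 2 * √2 := by rw [pow_succ, s2]
  have s6 : √2 ^ 4 = 4 := by rw [show √2 ^ 4 = (√2 ^ 2) ^ 2 by ring, s2]; norm_num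
  have e2 : u1 ^ 2 = 3 - 2 * √2 := by unfold u1; nlinarith
  have e3 : u1 ^ 3 = 5 * √2 - 7 := by
    rw [pow_succ, e2]; unfold u1; nlinarith
  have e4 : u1 ^ 4 = 17 - 12 * √2 := by
    rw [show u1 ^ 4 = (u1 ^ 2) ^ 2 by ring, e2]; nlinarith
  refine ⟨by positivity, ?_, ?_, ?_, ?_⟩
  · rw [mul_pow, e2]; nlinarith
  · rw [e2]; unfold u1; nlinarith
  · rw [e2, e4]; 
    have : (1:ℝ) - 4 * (3 - 2 * √2) - (17 - 12 * √2) = 20 * (√2 - 14/10) := by ring
    rw [this]; linarith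
  · rw [e2, e3, e4]; ring

/-- Ping pong for one letter at the special parameter. -/
theorem stepE (a : (Bool × Bool) × Fin 3) {p : Fin 2 → ℂ} (hp : Bs p)
    (h : S1 a.1.1 (sgn a.1.2) p ∨ S3 a.1.1 (sgn a.1.2) p) :
    Bs (((E a).map (ev u1)).mulVec p) ∧ F a.1.1 (sgn a.1.2) (((E a).map (ev u1)).mulVec p) := by
  obtain ⟨f1, f2, f3, f4, f5⟩ := u1_facts
  obtain ⟨⟨t, e⟩, k⟩ := a
  have hs := sgn_sq e
  have hA : ∀ q : Fin 2 → ℂ, Bs q → (S1 t (sgn e) q ∨ S3 t (sgn e) q) →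
      Bs (((Am t e).map (ev u1)).mulVec q) ∧ F t (sgn e) (((Am t e).map (ev u1)).mulVec q) := by
    intro q hq h
    rw [Am_map]
    apply stepA hs f1 _ _ hq h
    · rw [neg_sq, mul_pow, hs, one_mul, f2]
    · linear_combination - sgn e * f3
  have hB : ∀ q : Fin 2 → ℂ, Bs q → (S1 t (sgn e) q ∨ S3 t (sgn e) q) →
      Bs (((Bm t e).map (ev u1)).mulVec q) ∧ F t (sgn e) (((Bm t e).map (ev u1)).mulVec q) := by
    intro q hq h
    rw [Bm_map]
    apply stepB hs f4 _ hq h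
    rw [f5]
  fin_cases k
  · exact hB p hp h
  · exact hA p hp h
  · have h1 := hB p hp h
    have h2 := hA _ h1.1 (F_S1 hs h1.1 h1.2)
    have : (E ((t, e), 2)).map (ev u1) = (Am t e).map (ev u1) * (Bm t e).map (ev u1) := by
      change (Am t e * Bm t e).map (ev u1) = _
      rw [Matrix.map_mul]
    simp only [Fin.reduceFinMk]
    rw [this, ← Matrix.mulVec_mulVec]
    exact h2

/-- The matrix of a list of letters with pieces. -/
noncomputable def Mw (L : List ((Bool × Bool) × Fin 3)) : Matrix (Fin 2) (Fin 2) ℂ[X] :=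
  (L.map E).prod

theorem Mw_cons (a : (Bool × Bool) × Fin 3) (L : List ((Bool × Bool) × Fin 3)) (u : ℝ) :
    (Mw (a :: L)).map (ev u) = (E a).map (ev u) * (Mw L).map (ev u) := by
  unfold Mw
  rw [List.map_cons, List.prod_cons, Matrix.map_mul]

theorem Mw_nil (u : ℝ) : (Mw []).map (ev u) = 1 := by
  unfold Mw
  simp

/-- Reduced lists. -/
def Red (L : List ((Bool × Bool) × Fin 3)) : Prop :=
  List.IsChain (fun a b => a.1.1 = b.1.1 → a.1.2 = b.1.2) L

theorem ping (L : List ((Bool × Bool) × Fin 3)) : ∀ a, Red (a :: L) →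
    ∃ p : Fin 2 → ℂ, |mc true p| = |oc true p| ∧
      Bs (((Mw (a :: L)).map (ev u1)).mulVec p) ∧
      F a.1.1 (sgn a.1.2) (((Mw (a :: L)).map (ev u1)).mulVec p) := by
  induction L with
  | nil =>
    intro a _
    have hs := sgn_sq a.1.2
    have s2 : √2 ^ 2 = 2 := Real.sq_sqrt (by norm_num)
    have s0 : 0 < √2 := by positivity
    obtain ⟨p, hb, hm, ho, hr⟩ : ∃ p : Fin 2 → ℂ, Bs p ∧ mc a.1.1 p = - √2 * sgn a.1.2 ∧
        oc a.1.1 p = √2 ∧ normSq (p 1) = 2 := by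
      cases a.1.1
      · refine ⟨![1 - (sgn a.1.2 : ℂ) * I, (√2 : ℂ)], ?_, ?_, ?_, ?_⟩
        · simp [Bs, normSq_apply]; nlinarith
        · simp [mc]; ring
        · simp [oc]
        · simp [normSq_apply]
      · refine ⟨![-(sgn a.1.2 : ℂ) + I, (√2 : ℂ)], ?_, ?_, ?_, ?_⟩
        · simp [Bs, normSq_apply]; nlinarith
        · simp [mc]; ring
        · simp [oc]
        · simp [normSq_apply]
    refine ⟨p, ?_, ?_⟩
    · have habs : |sgn a.1.2| = 1 := by
        have : |sgn a.1.2| ^ 2 = 1 := by rw [sq_abs, hs]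
        nlinarith [abs_nonneg (sgn a.1.2)]
      have h1 : |mc a.1.1 p| = |oc a.1.1 p| := by
        rw [hm, ho, abs_mul, habs, abs_neg, mul_one]
      cases h : a.1.1
      · rw [h] at h1
        simp only [mc, oc, Bool.false_eq_true, if_false, if_true] at h1 ⊢
        exact h1.symm
      · rw [h] at h1; exact h1
    · rw [Mw_cons, Mw_nil, mul_one]
      apply stepE a hb
      left
      unfold S1
      rw [ho, hm, hr]
      refine ⟨s0.ne', ?_⟩
      rw [abs_of_pos s0]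
      nlinarith
  | cons b L ih =>
    intro a ha
    unfold Red at ha
    rw [List.isChain_cons_cons] at ha
    obtain ⟨p, h1, h2, h3⟩ := ih b ha.2
    refine ⟨p, h1, ?_⟩
    rw [Mw_cons, ← Matrix.mulVec_mulVec]
    apply stepE a h2
    by_cases hab : a.1.1 = b.1.1
    · rw [hab, ha.1 hab]
      exact F_S1 (sgn_sq _) h2 h3
    · left
      exact F_cross hab (sgn_sq _) (sgn_sq _) h2 h3

/-- Scalar matrices. -/
def Scal (M : Matrix (Fin 2) (Fin 2) ℂ) : Prop := M 0 1 = 0 ∧ M 1 0 = 0 ∧ M 0 0 = M 1 1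

theorem not_scal (a : (Bool × Bool) × Fin 3) (L : List ((Bool × Bool) × Fin 3))
    (h : Red (a :: L)) : ¬ Scal ((Mw (a :: L)).map (ev u1)) := by
  rintro ⟨s1, s2, s3⟩
  obtain ⟨p, h1, h2, h3⟩ := ping L a h
  set M := (Mw (a :: L)).map (ev u1) with hM
  have e : M.mulVec p = fun i => M 0 0 * p i := by
    ext i
    fin_cases i
    · simp [Matrix.mulVec, dotProduct, Fin.sum_univ_two, s1]
    · simp [Matrix.mulVec, dotProduct, Fin.sum_univ_two, s2, s3]
  have key : ∀ t : Bool, |mc t (M.mulVec p)| = |oc t (M.mulVec p)| := by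
    intro t
    have f : ∀ q : Fin 2 → ℂ, (M 0 0 * q 0) * starRingEnd ℂ (M 0 0 * q 1) =
        (normSq (M 0 0) : ℂ) * (q 0 * starRingEnd ℂ (q 1)) := by
      intro q; rw [map_mul, ← mul_conj]; ring
    have h1' : |(p 0 * starRingEnd ℂ (p 1)).re| = |(p 0 * starRingEnd ℂ (p 1)).im| := by
      simpa [mc, oc] using h1
    rw [e]
    cases t
    · simp only [mc, oc, Bool.false_eq_true, if_false]
      rw [f, re_ofReal_mul, im_ofReal_mul, abs_mul, abs_mul, h1']
    · simp only [mc, oc, if_true]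
      rw [f, re_ofReal_mul, im_ofReal_mul, abs_mul, abs_mul, h1']
  have hlt : |oc a.1.1 (M.mulVec p)| < |mc a.1.1 (M.mulVec p)| := by
    have hs : |sgn a.1.2| = 1 := by
      have : |sgn a.1.2| ^ 2 = 1 := by rw [sq_abs, sgn_sq]
      nlinarith [abs_nonneg (sgn a.1.2)]
    rcases h3 with ⟨k1, k2⟩ | ⟨k1, k2, k3⟩
    · have := neg_abs_le (sgn a.1.2 * mc a.1.1 (M.mulVec p))
      rw [abs_mul, hs] at this
      linarith
    · have := le_abs_self (sgn a.1.2 * mc a.1.1 (M.mulVec p))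
      rw [abs_mul, hs] at this
      rw [k1, abs_zero]
      linarith
  rw [key] at hlt
  exact lt_irrefl _ hlt

/-- The exceptional parameters of a list are finite in number. -/
theorem finite_bad (a : (Bool × Bool) × Fin 3) (L : List ((Bool × Bool) × Fin 3))
    (h : Red (a :: L)) : {u : ℝ | Scal ((Mw (a :: L)).map (ev u))}.Finite := by
  have hn := not_scal a L h
  have hroots : ∀ q : ℂ[X], ev u1 q ≠ 0 → {u : ℝ | ev u q = 0}.Finite := by
    intro q hq
    have hq0 : q ≠ 0 := by rintro rfl; simp at hq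
    have : {u : ℝ | ev u q = 0} ⊆ (fun u : ℝ => (u : ℂ)) ⁻¹' (q.roots.toFinset : Set ℂ) := by
      intro u hu
      simp only [Set.mem_preimage, Finset.mem_coe, Multiset.mem_toFinset]
      rw [mem_roots hq0]
      exact hu
    exact Set.Finite.subset (Set.Finite.preimage
      (fun x _ y _ hxy => ofReal_injective hxy) (Finset.finite_toSet _)) this
  unfold Scal at hn
  simp only [Matrix.map_apply] at hn
  by_cases c1 : ev u1 (Mw (a :: L) 0 1) = 0
  · by_cases c2 : ev u1 (Mw (a :: L) 1 0) = 0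
    · have c3 : ev u1 (Mw (a :: L) 0 0 - Mw (a :: L) 1 1) ≠ 0 := by
        intro h3
        rw [map_sub, sub_eq_zero] at h3
        exact hn ⟨c1, c2, h3⟩
      apply (hroots _ c3).subset
      rintro u ⟨-, -, hu⟩
      simp only [Matrix.map_apply] at hu
      change ev u _ = 0
      rw [map_sub, hu, sub_self]
    · apply (hroots _ c2).subset
      rintro u ⟨-, hu, -⟩
      exact hu
  · apply (hroots _ c1).subset
    rintro u ⟨hu, -⟩
    exact hu

end Pool.Agent.R788.PI
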