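import Pool.Agent.R788.PI.Bij
import Pool.Agent.R788.PI.Ping

set_option autoImplicit false

namespace Pool.Agent.R788.PI

open Complex

/-- The matrix `M` maps `z` to `z'` as a Moebius map. -/
def Rel (M : Matrix (Fin 2) (Fin 2) ℂ) (z z' : ℂ) : Prop :=
  ∃ k : ℂ, k ≠ 0 ∧ M.mulVec ![z, 1] = k • ![z', 1]

theorem Rel.mul {M N : Matrix (Fin 2) (Fin 2) ℂ} {z z' z'' : ℂ} (h : Rel M z' z'')
    (h' : Rel N z z') : Rel (M * N) z z'' := by
  obtain ⟨k, hk, e⟩ := h
  obtain ⟨k', hk', e'⟩ := h'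
  refine ⟨k' * k, mul_ne_zero hk' hk, ?_⟩
  rw [← Matrix.mulVec_mulVec, e', Matrix.mulVec_smul, e, smul_smul]

theorem Rel.one (z : ℂ) : Rel 1 z z := ⟨1, one_ne_zero, by rw [Matrix.one_mulVec, one_smul]⟩

/-- Conjugation for the second direction. -/
noncomputable def cj (t : Bool) (z : ℂ) : ℂ := if t then z else sig z

theorem cj_cj (t : Bool) (z : ℂ) : cj t (cj t z) = z := by
  cases t
  · simp [cj, sig_sig]
  · simp [cj]

theorem norm_cj (t : Bool) (z : ℂ) : ‖cj t z‖ = ‖z‖ := by
  cases t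
  · simp [cj, norm_sig]
  · simp [cj]

theorem cj_mem {α : ℝ} (t : Bool) {z : ℂ} (h : z ∈ Q α) : cj t z ∈ Q α := by
  cases t
  · simpa [cj] using sig_mem_Q h
  · simpa [cj] using h

theorem rel_tau (t : Bool) {c d x : ℝ} (hc : |c| < 1) (hd : d ≠ 0) (hx : x = c * d) {z : ℂ}
    (hz : ‖z‖ < 1) : Rel (Gr t d x) z (cj t (tau c (cj t z))) := by
  have hd' : (d : ℂ) ≠ 0 := by exact_mod_cast hd
  subst hx
  cases t
  · have h1 := tau_den hc (z := sig z) (by rwa [norm_sig])
    have h2 : (1 : ℂ) - c * I * z ≠ 0 := by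
      intro h
      apply h1
      have := congrArg (starRingEnd ℂ) h
      simp only [map_sub, map_mul, map_one, conj_ofReal, conj_I, map_zero] at this
      unfold sig
      linear_combination this
    refine ⟨d * (1 - c * I * z), mul_ne_zero hd' h2, ?_⟩
    have e : cj false (tau c (cj false z)) = (z + c * I) / (1 - c * I * z) := by
      simp only [cj, Bool.false_eq_true, if_false]
      rw [tau_real]
      unfold sig
      simp only [map_div₀, map_add, map_mul, conj_ofReal, conj_I, conj_conj, map_one]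
      rw [eq_div_iff h2, mul_div_assoc', div_mul_eq_mul_div, div_eq_iff]
      · linear_combination (z + c * I) * (1 - c * I * z) * I_mul_I * 0 +
          (-(z + z * 0) * (1 - c * I * z)) * I_mul_I
      · intro h
        apply h2
        linear_combination h
    rw [e]
    have e2 : (1 - c * I * z) * ((z + c * I) / (1 - c * I * z)) = z + c * I :=
      mul_div_cancel₀ _ h2
    ext i
    fin_cases i
    · simp [Gr, Matrix.mulVec, dotProduct, Fin.sum_univ_two]
      linear_combination - (d : ℂ) * e2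
    · simp [Gr, Matrix.mulVec, dotProduct, Fin.sum_univ_two]
      ring
  · have h1 := tau_den hc hz
    refine ⟨d * (c * z + 1), mul_ne_zero hd' h1, ?_⟩
    have e : cj true (tau c (cj true z)) = (z + c) / (c * z + 1) := by
      simp only [cj, if_true]
      rw [tau_real]
    rw [e]
    have e2 : (c * z + 1) * ((z + c) / (c * z + 1)) = z + c := mul_div_cancel₀ _ h1
    ext i
    fin_cases i
    · simp [Gr, Matrix.mulVec, dotProduct, Fin.sum_univ_two]
      linear_combination - (d : ℂ) * e2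
    · simp [Gr, Matrix.mulVec, dotProduct, Fin.sum_univ_two]
      ring

theorem Gr_comm (t : Bool) (d x d' x' : ℝ) : Gr t d x * Gr t d' x' = Gr t d' x' * Gr t d x := by
  cases t
  · ext i j
    fin_cases i <;> fin_cases j <;> simp [Gr, Matrix.mul_apply, Fin.sum_univ_two] <;> ring
  · ext i j
    fin_cases i <;> fin_cases j <;> simp [Gr, Matrix.mul_apply, Fin.sum_univ_two] <;> ring

/-- The relation between the parameter `u` and `α, β`. -/
structure UPar (u α β : ℝ) : Prop where
  h1 : 0 < 1 + u ^ 2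
  h2 : 0 < 1 - 4 * u ^ 2 - u ^ 4
  e1 : 2 * u = α * (1 + u ^ 2)
  e2 : 4 * u ^ 3 = β * (1 - 4 * u ^ 2 - u ^ 4)

/-- The generators. -/
noncomputable def gen {α β : ℝ} (hP : Par α β) (i : Bool) : Equiv.Perm (Q α) :=
  if i then Phi hP else Psi hP

theorem gen_apply {α β : ℝ} (hP : Par α β) (i : Bool) (z : Q α) :
    (gen hP i z : ℂ) = cj i (phi α β (cj i z)) := by
  cases i
  · simp [gen, cj, Psi_apply, psi]
  · simp [gen, cj, Phi_apply]

theorem rel_pos {α β u : ℝ} (hP : Par α β) (hu : UPar u α β) (t : Bool) {w : ℂ} (hw : w ∈ Q α) :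
    ∃ k : Fin 3, Rel ((E ((t, true), k)).map (ev u)) (cj t w) (cj t (phi α β w)) := by
  have hw1 := (mem_Q'.mp hw).1
  have hA : ∀ y : ℂ, ‖y‖ < 1 → Rel ((Am t true).map (ev u)) (cj t y) (cj t (tau (-α : ℝ) y)) := by
    intro y hy
    rw [Am_map]
    have := rel_tau t (z := cj t y) (ab_neg hP.ha) hu.h1.ne'
      (x := -(sgn true * (2 * u))) (by simp only [sgn, if_true, one_mul]; rw [hu.e1]; ring)
      (by rwa [norm_cj])
    rwa [cj_cj] at this
  have hB : ∀ y : ℂ, ‖y‖ < 1 → Rel ((Bm t true).map (ev u)) (cj t y) (cj t (tau β y)) := by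
    intro y hy
    rw [Bm_map]
    have := rel_tau t (z := cj t y) hP.hb hu.h2.ne'
      (x := (sgn true * (4 * u ^ 3))) (by simp only [sgn, if_true, one_mul]; rw [hu.e2])
      (by rwa [norm_cj])
    rwa [cj_cj] at this
  rcases phi_cases hP hw with h | h | h
  · exact ⟨0, by rw [h.1]; exact hB w hw1⟩
  · exact ⟨1, by rw [h.1]; exact hA w hw1⟩
  · refine ⟨2, ?_⟩
    rw [h.1]
    change Rel ((Am t true * Bm t true).map (ev u)) _ _
    rw [Matrix.map_mul]
    exact (hA _ (norm_tau_lt hP.hb hw1)).mul (hB w hw1)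

theorem rel_neg {α β u : ℝ} (hP : Par α β) (hu : UPar u α β) (t : Bool) {w : ℂ} (hw : w ∈ Q α) :
    ∃ k : Fin 3, Rel ((E ((t, false), k)).map (ev u)) (cj t (phi α β w)) (cj t w) := by
  have hw1 := (mem_Q'.mp hw).1
  have hA : ∀ y : ℂ, ‖y‖ < 1 → Rel ((Am t false).map (ev u)) (cj t (tau (-α : ℝ) y)) (cj t y) := by
    intro y hy
    rw [Am_map]
    have := rel_tau t (z := cj t (tau (-α : ℝ) y)) hP.ha hu.h1.ne'
      (x := -(sgn false * (2 * u)))
      (by simp only [sgn, Bool.false_eq_true, if_false]; rw [hu.e1]; ring)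
      (by rw [norm_cj]; exact norm_tau_lt (ab_neg hP.ha) hy)
    rwa [cj_cj, tau_tau_neg hP.ha hy] at this
  have hB : ∀ y : ℂ, ‖y‖ < 1 → Rel ((Bm t false).map (ev u)) (cj t (tau β y)) (cj t y) := by
    intro y hy
    rw [Bm_map]
    have := rel_tau t (z := cj t (tau β y)) (ab_neg hP.hb) hu.h2.ne'
      (x := (sgn false * (4 * u ^ 3)))
      (by simp only [sgn, Bool.false_eq_true, if_false]; rw [hu.e2]; ring)
      (by rw [norm_cj]; exact norm_tau_lt hP.hb hy)
    have h2 := tau_tau_neg (ab_neg hP.hb) hy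
    rw [neg_neg] at h2
    rwa [cj_cj, h2] at this
  rcases phi_cases hP hw with h | h | h
  · exact ⟨0, by rw [h.1]; exact hB w hw1⟩
  · exact ⟨1, by rw [h.1]; exact hA w hw1⟩
  · refine ⟨2, ?_⟩
    rw [h.1]
    change Rel ((Am t false * Bm t false).map (ev u)) _ _
    rw [Matrix.map_mul, Am_map, Bm_map, Gr_comm, ← Am_map, ← Bm_map]
    exact (hB w hw1).mul (hA _ (norm_tau_lt hP.hb hw1))

theorem rel_letter {α β u : ℝ} (hP : Par α β) (hu : UPar u α β) (a : Bool × Bool) (z : Q α) :
    ∃ k : Fin 3, Rel ((E (a, k)).map (ev u)) z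
      ((cond a.2 (gen hP a.1) (gen hP a.1)⁻¹ : Equiv.Perm (Q α)) z : Q α) := by
  obtain ⟨t, e⟩ := a
  cases e
  · simp only [cond_false]
    set y : Q α := (gen hP t)⁻¹ z with hy
    have h1 : gen hP t y = z := by rw [hy]; simp
    have h2 : (z : ℂ) = cj t (phi α β (cj t y)) := by rw [← h1, gen_apply]
    obtain ⟨k, hk⟩ := rel_neg hP hu t (cj_mem t y.2)
    rw [cj_cj, ← h2] at hk
    exact ⟨k, hk⟩
  · simp only [cond_true]
    obtain ⟨k, hk⟩ := rel_pos hP hu t (cj_mem t z.2)
    rw [cj_cj, ← gen_apply hP] at hk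
    exact ⟨k, hk⟩

theorem rel_word {α β u : ℝ} (hP : Par α β) (hu : UPar u α β) (W : List (Bool × Bool))
    (z : Q α) : ∃ L : List ((Bool × Bool) × Fin 3), L.map Prod.fst = W ∧
      Rel ((Mw L).map (ev u)) z
      (((W.map (fun x => cond x.2 (gen hP x.1) (gen hP x.1)⁻¹)).prod : Equiv.Perm (Q α)) z :
        Q α) := by
  induction W with
  | nil =>
    refine ⟨[], rfl, ?_⟩
    rw [Mw_nil]
    exact Rel.one _
  | cons a W ih =>
    obtain ⟨L, hL, hr⟩ := ih
    obtain ⟨k, hk⟩ := rel_letter hP hu a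
      ((W.map (fun x => cond x.2 (gen hP x.1) (gen hP x.1)⁻¹)).prod z)
    refine ⟨(a, k) :: L, by simp [hL], ?_⟩
    rw [Mw_cons]
    exact hk.mul hr

theorem fix_fin {M : Matrix (Fin 2) (Fin 2) ℂ} (h : ¬ Scal M) : {z : ℂ | Rel M z z}.Finite := by
  classical
  let q : Polynomial ℂ := Polynomial.C (M 1 0) * Polynomial.X ^ 2 +
    Polynomial.C (M 1 1 - M 0 0) * Polynomial.X - Polynomial.C (M 0 1)
  have hq : q ≠ 0 := by
    intro h0
    apply h
    have c0 := congrArg (fun r => Polynomial.coeff r 0) h0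
    have c1 := congrArg (fun r => Polynomial.coeff r 1) h0
    have c2 := congrArg (fun r => Polynomial.coeff r 2) h0
    simp [q, Polynomial.coeff_X, Polynomial.coeff_C, Polynomial.coeff_X_pow] at c0 c1 c2
    exact ⟨c0, c2, by linear_combination - c1⟩
  apply (Finset.finite_toSet q.roots.toFinset).subset
  rintro z ⟨k, -, hk⟩
  have e0 := congrFun hk 0
  have e1 := congrFun hk 1
  simp [Matrix.mulVec, dotProduct, Fin.sum_univ_two] at e0 e1
  simp only [Finset.mem_coe, Multiset.mem_toFinset]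
  rw [Polynomial.mem_roots hq, Polynomial.IsRoot.def]
  simp only [q, Polynomial.eval_sub, Polynomial.eval_add, Polynomial.eval_mul, Polynomial.eval_C,
    Polynomial.eval_pow, Polynomial.eval_X]
  linear_combination z * e1 - e0

/-- Non exceptional parameters: no reduced nonempty list of letters with pieces gives a scalar
matrix. -/
def NonExc (u : ℝ) : Prop :=
  ∀ (a : (Bool × Bool) × Fin 3) (L : List ((Bool × Bool) × Fin 3)), Red (a :: L) →
    ¬ Scal ((Mw (a :: L)).map (ev u))

theorem countable_exc : {u : ℝ | ¬ NonExc u}.Countable := by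
  have : {u : ℝ | ¬ NonExc u} ⊆ ⋃ p : ((Bool × Bool) × Fin 3) × List ((Bool × Bool) × Fin 3),
      {u : ℝ | Red (p.1 :: p.2) ∧ Scal ((Mw (p.1 :: p.2)).map (ev u))} := by
    intro u hu
    unfold NonExc at hu
    simp only [Set.mem_ofPred_eq] at hu
    push Not at hu
    obtain ⟨a, L, h1, h2⟩ := hu
    exact Set.mem_iUnion.mpr ⟨(a, L), h1, h2⟩
  apply (Set.countable_iUnion _).mono this
  rintro ⟨a, L⟩
  by_cases h : Red (a :: L)
  · exact ((finite_bad a L h).subset (fun u hu => hu.2)).countable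
  · convert Set.countable_empty
    ext u
    simp [h]

theorem fixed_finite {α β u : ℝ} (hP : Par α β) (hu : UPar u α β) (hN : NonExc u)
    {w : FreeGroup Bool} (hw : w ≠ 1) :
    {z : Q α | FreeGroup.lift (gen hP) w z = z}.Finite := by
  have hw0 : w.toWord ≠ [] := by rwa [ne_eq, FreeGroup.toWord_eq_nil_iff]
  have hred : FreeGroup.IsReduced w.toWord := FreeGroup.isReduced_toWord
  have hval : FreeGroup.lift (gen hP) w =
      (w.toWord.map (fun x => cond x.2 (gen hP x.1) (gen hP x.1)⁻¹)).prod := by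
    conv_lhs => rw [← FreeGroup.mk_toWord (x := w)]
    rw [FreeGroup.lift_mk]
  have hfin : {L : List ((Bool × Bool) × Fin 3) | L.map Prod.fst = w.toWord}.Finite := by
    apply (List.finite_length_eq ((Bool × Bool) × Fin 3) w.toWord.length).subset
    intro L hL
    simp only [Set.mem_ofPred_eq] at hL ⊢
    rw [← hL, List.length_map]
  have hsub : ((↑) : Q α → ℂ) '' {z : Q α | FreeGroup.lift (gen hP) w z = z} ⊆
      ⋃ L ∈ {L : List ((Bool × Bool) × Fin 3) | L.map Prod.fst = w.toWord},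
        {z : ℂ | Rel ((Mw L).map (ev u)) z z} := by
    rintro _ ⟨z, hz, rfl⟩
    obtain ⟨L, hL, hr⟩ := rel_word hP hu w.toWord z
    rw [← hval] at hr
    simp only [Set.mem_ofPred_eq] at hz
    rw [hz] at hr
    exact Set.mem_biUnion hL hr
  have hfin2 : (⋃ L ∈ {L : List ((Bool × Bool) × Fin 3) | L.map Prod.fst = w.toWord},
        {z : ℂ | Rel ((Mw L).map (ev u)) z z}).Finite := by
    apply hfin.biUnion
    intro L hL
    simp only [Set.mem_ofPred_eq] at hL
    cases L with
    | nil => exact absurd hL.symm hw0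
    | cons a L =>
      apply fix_fin
      apply hN
      unfold Red
      unfold FreeGroup.IsReduced at hred
      rw [← hL, List.isChain_map] at hred
      exact hred
  exact Set.Finite.of_finite_image (hfin2.subset hsub) Subtype.val_injective.injOn

theorem Q_infinite {α β : ℝ} (hP : Par α β) : Infinite (Q α) := by
  set x0 := min (1 / 2) (S α / 4) with hx0
  have h0 : 0 < x0 := lt_min (by norm_num) (by have := hP.Spos; linarith)
  have hx2 : x0 ≤ 1 / 2 := min_le_left _ _
  have hx4 : x0 ≤ S α / 4 := min_le_right _ _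
  have hS := hP.Spos
  have hmem : ∀ x : ℝ, x ∈ Set.Ioo 0 x0 → (x : ℂ) ∈ Q α := by
    intro x hx
    have hx1 : x < 1 / 2 := lt_of_lt_of_le hx.2 hx2
    have hn : normSq (x : ℂ) = x ^ 2 := by rw [normSq_ofReal]; ring
    rw [mem_Q]
    refine ⟨?_, ⟨?_, ?_⟩, ?_, ?_⟩
    · rw [norm_real, Real.norm_eq_abs, abs_of_pos hx.1]; linarith
    · unfold X
      rw [hn, ofReal_re]
      have : 0 ≤ 2 * x / (1 - x ^ 2) := by
        apply div_nonneg _ _
        · linarith [hx.1]
        · nlinarith [hx.1]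
      linarith
    · unfold X
      rw [hn, ofReal_re, div_lt_iff₀ (by nlinarith [hx.1])]
      have hx3 := hx.2
      have hx5 : x ^ 2 ≤ 1 / 4 := by nlinarith [hx.1]
      have hx6 : S α * (3 / 4) ≤ S α * (1 - x ^ 2) :=
        mul_le_mul_of_nonneg_left (by linarith) hS.le
      linarith
    · unfold Y; rw [ofReal_im]; simp; linarith
    · unfold Y; rw [ofReal_im]; simp; linarith
  have hinf : (Set.Ioo 0 x0).Infinite := Set.Ioo_infinite h0
  have := hinf.to_subtype
  exact Infinite.of_injective (fun x : Set.Ioo (0:ℝ) x0 => (⟨(x : ℝ), hmem x x.2⟩ : Q α))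
    (fun x y h => by
      have h1 := congrArg Subtype.val h
      exact Subtype.ext (ofReal_injective h1))

theorem good_of {α u : ℝ} (h0 : 0 < α) (h : α < √(2 * √3 - 3)) (hu : UPar u α (betaLow α))
    (hN : NonExc u) : Good α := by
  have hP := par_edge h0 h
  have hgen : (fun i : Bool => if i then Phi hP else Psi hP) = gen hP := rfl
  refine ⟨Phi hP, Psi hP, Phi_apply hP, Psi_apply hP, ?_, ?_⟩
  · rw [hgen, injective_iff_map_eq_one]
    intro w hw
    by_contra hne
    have hf := fixed_finite hP hu hN hne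
    have := Q_infinite hP
    apply Set.infinite_univ (α := Q α)
    apply hf.subset
    intro z _
    simp only [Set.mem_ofPred_eq]
    rw [hw]; rfl
  · intro g hg hg1
    have hr : Set.range (gen hP) = {Phi hP, Psi hP} := by
      ext x
      simp only [Set.mem_range, Set.mem_insert_iff, Set.mem_singleton_iff, Bool.exists_bool]
      simp only [gen, if_true, Bool.false_eq_true, if_false]
      constructor
      · rintro (h | h)
        · exact Or.inr h.symm
        · exact Or.inl h.symm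
      · rintro (h | h)
        · exact Or.inr h.symm
        · exact Or.inl h.symm
    rw [← hr, ← FreeGroup.range_lift_eq_closure] at hg
    obtain ⟨w, rfl⟩ := hg
    apply fixed_finite hP hu hN
    rintro rfl
    exact hg1 (map_one _)

theorem upar_of {α : ℝ} (h0 : 0 < α) (h : α < √(2 * √3 - 3)) :
    UPar (α / (1 + √(1 - α ^ 2))) α (betaLow α) := by
  obtain ⟨h2, hden, hb0, hb1, h1⟩ := edge h0 h
  set s := √(1 - α ^ 2) with hs
  have hs2 : s ^ 2 = 1 - α ^ 2 := Real.sq_sqrt (by nlinarith)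
  have hs0 : 0 ≤ s := Real.sqrt_nonneg _
  have hp : 0 < 1 + s := by linarith
  have ha2 : α ^ 2 = 1 - s ^ 2 := by linarith
  have hu2 : (α / (1 + s)) ^ 2 = (1 - s) / (1 + s) := by
    rw [div_pow, ha2, div_eq_div_iff (by positivity) hp.ne']; ring
  have hu4 : (α / (1 + s)) ^ 4 = ((1 - s) / (1 + s)) ^ 2 := by
    rw [← hu2]; ring
  have hu3 : (α / (1 + s)) ^ 3 = (1 - s) / (1 + s) * (α / (1 + s)) := by
    rw [← hu2]; ring
  have key : 1 - 4 * (α / (1 + s)) ^ 2 - (α / (1 + s)) ^ 4 = 4 * (s - α ^ 2) / (1 + s) ^ 2 := by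
    rw [hu2, hu4, ha2]; field_simp; ring
  refine ⟨by positivity, ?_, ?_, ?_⟩
  · rw [key]; positivity
  · rw [hu2]; field_simp; ring
  · rw [key, hu3]
    have : betaLow α = α * (1 - s) / (s - α ^ 2) := rfl
    rw [this]
    field_simp

theorem main : {α : ℝ | 0 < α ∧ α < √(2 * √3 - 3) ∧ ¬ Good α}.Countable := by
  have hsub : {α : ℝ | 0 < α ∧ α < √(2 * √3 - 3) ∧ ¬ Good α} ⊆
      (fun u : ℝ => 2 * u / (1 + u ^ 2)) '' {u : ℝ | ¬ NonExc u} := by
    rintro α ⟨h0, h, hg⟩
    have hu := upar_of h0 h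
    refine ⟨α / (1 + √(1 - α ^ 2)), fun hN => hg (good_of h0 h hu hN), ?_⟩
    have := hu.e1
    simp only
    rw [this, mul_div_assoc, div_self hu.h1.ne', mul_one]
  exact (countable_exc.image _).mono hsub

theorem exists_good : ∃ α : ℝ, 0 < α ∧ α < √(2 * √3 - 3) ∧ Good α := by
  have h3l : (17:ℝ)/10 < √3 := by
    apply Real.lt_sqrt_of_sq_lt; norm_num
  have hpos : 0 < √(2 * √3 - 3) := Real.sqrt_pos.mpr (by linarith)
  by_contra hcon
  push Not at hcon
  have hI : (Set.Ioo 0 √(2 * √3 - 3)).Countable := by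
    apply main.mono
    rintro α ⟨h0, h1⟩
    exact ⟨h0, h1, hcon α h0 h1⟩
  rw [← Cardinal.le_aleph0_iff_set_countable, Cardinal.mk_Ioo_real hpos] at hI
  exact absurd hI (not_le.mpr Cardinal.aleph0_lt_continuum)

theorem pieces_disjoint {α : ℝ} (h0 : 0 < α) (h : α < √(2 * √3 - 3)) :
    Disjoint (Q α ∩ H (-betaLow α) (b α)) (Q α \ H α (-b α)) := by
  have hP := par_edge h0 h
  rw [Set.disjoint_left]
  rintro z ⟨hz, h1⟩ ⟨-, h2⟩
  have hz1 := (mem_Q'.mp hz).1
  rw [mem_quad hP.hb hz1] at h1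
  rw [mem_lens hP.ha hz1] at h2
  have := hP.up (Y z)
  linarith

end Pool.Agent.R788.PI
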